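import Mathlib

/-!
# MP_e962e1_co: the critical problem and the step
-/

set_option autoImplicit false

namespace BogSt

open Finset

/-- number of linear maps to `GF(2)^k` which do not vanish at any point of `S` -/
noncomputable def NN {V : Type} [AddCommGroup V] [Module (ZMod 2) V] (k : ℕ) (S : Finset V) : ℕ :=
  Nat.card {φ : V →ₗ[ZMod 2] (Fin k → ZMod 2) // ∀ s ∈ S, φ s ≠ 0}

theorem card_vanish {V : Type} [AddCommGroup V] [Module (ZMod 2) V] [Finite V] (k : ℕ) (X : Set V) :
    Nat.card {φ : V →ₗ[ZMod 2] (Fin k → ZMod 2) // ∀ s ∈ X, φ s = 0} =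
      (2 ^ k) ^ (Module.finrank (ZMod 2) V - Module.finrank (ZMod 2) (Submodule.span (ZMod 2) X)) := by
  have e : {φ : V →ₗ[ZMod 2] (Fin k → ZMod 2) // ∀ s ∈ X, φ s = 0} ≃
      ((V ⧸ Submodule.span (ZMod 2) X) →ₗ[ZMod 2] (Fin k → ZMod 2)) :=
    { toFun := fun φ => (Submodule.span (ZMod 2) X).liftQ φ.1 (by
        rw [Submodule.span_le]
        intro s hs
        exact φ.2 s hs)
      invFun := fun ψ => ⟨ψ.comp (Submodule.mkQ _), by
        intro s hs
        have : (Submodule.span (ZMod 2) X).mkQ s = 0 := by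
          rw [Submodule.mkQ_apply, Submodule.Quotient.mk_eq_zero]
          exact Submodule.subset_span hs
        rw [LinearMap.comp_apply, this, map_zero]⟩
      left_inv := by
        intro φ
        ext x
        simp
      right_inv := by
        intro ψ
        ext x
        simp }
  have h1 := Submodule.finrank_quotient_add_finrank (Submodule.span (ZMod 2) X)
  rw [Nat.card_congr e, Module.natCard_eq_pow_finrank (K := ZMod 2), Module.finrank_linearMap,
    Module.finrank_fin_fun, Nat.card_zmod, mul_comm, pow_mul]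
  congr 1
  omega

open Classical in
theorem NN_eq {V : Type} [AddCommGroup V] [Module (ZMod 2) V] [Finite V] (k : ℕ) (S : Finset V) :
    (NN k S : ℤ) = ∑ X ∈ S.powerset, (-1 : ℤ) ^ X.card * ((2 : ℤ) ^ k) ^
      (Module.finrank (ZMod 2) V - Module.finrank (ZMod 2) (Submodule.span (ZMod 2) (X : Set V))) := by
  have : Finite (V →ₗ[ZMod 2] (Fin k → ZMod 2)) := Module.finite_of_finite (ZMod 2)
  have : Fintype (V →ₗ[ZMod 2] (Fin k → ZMod 2)) := Fintype.ofFinite _
  have h := Finset.inclusion_exclusion_card_inf_compl S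
    (fun s : V => (Finset.univ.filter (fun φ : V →ₗ[ZMod 2] (Fin k → ZMod 2) => φ s = 0)))
  have h1 : NN k S = #(S.inf fun s : V =>
      ((Finset.univ.filter (fun φ : V →ₗ[ZMod 2] (Fin k → ZMod 2) => φ s = 0)))ᶜ) := by
    unfold NN
    rw [Nat.card_eq_fintype_card, Fintype.card_subtype]
    congr 1
    ext φ
    simp [Finset.mem_inf]
  rw [h1, h]
  apply Finset.sum_congr rfl
  intro X _
  congr 1
  have h2 : #(X.inf fun s : V =>
      ((Finset.univ.filter (fun φ : V →ₗ[ZMod 2] (Fin k → ZMod 2) => φ s = 0)))) =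
      Nat.card {φ : V →ₗ[ZMod 2] (Fin k → ZMod 2) // ∀ s ∈ (X : Set V), φ s = 0} := by
    rw [Nat.card_eq_fintype_card, Fintype.card_subtype]
    congr 1
    ext φ
    simp [Finset.mem_inf]
  rw [h2, card_vanish]
  push_cast
  rfl

/-- the points of the next geometry -/
def stepS {V : Type} [AddCommGroup V] [DecidableEq V] (S A : Finset V) : Finset (V × ZMod 2) :=
  S.image (fun s => (s, 0)) ∪ A.image (fun a => (a, 1))

theorem mem_stepS_zero {V : Type} [AddCommGroup V] [DecidableEq V] {S A : Finset V} {x : V} :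
    ((x, 0) : V × ZMod 2) ∈ stepS S A ↔ x ∈ S := by
  unfold stepS
  simp

theorem mem_stepS_one {V : Type} [AddCommGroup V] [DecidableEq V] {S A : Finset V} {x : V} :
    ((x, 1) : V × ZMod 2) ∈ stepS S A ↔ x ∈ A := by
  unfold stepS
  simp

theorem NN_step {V : Type} [AddCommGroup V] [Module (ZMod 2) V] [Finite V] [DecidableEq V]
    (k : ℕ) (S A : Finset V) (hA : ∀ a ∈ A, ∀ b ∈ A, a ≠ b → a - b ∈ S) :
    (NN k (stepS S A) : ℤ) = NN k S * ((2 : ℤ) ^ k - A.card) := by
  have e : {φ : V × ZMod 2 →ₗ[ZMod 2] (Fin k → ZMod 2) // ∀ s ∈ stepS S A, φ s ≠ 0} ≃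
      Σ φ : {φ : V →ₗ[ZMod 2] (Fin k → ZMod 2) // ∀ s ∈ S, φ s ≠ 0},
        {w : Fin k → ZMod 2 // ∀ a ∈ A, φ.1 a + w ≠ 0} :=
    { toFun := fun φ => ⟨⟨φ.1.comp (LinearMap.inl _ _ _), fun s hs => by
          have := φ.2 (s, 0) (mem_stepS_zero.2 hs)
          simpa using this⟩, ⟨φ.1 (0, 1), fun a ha => by
          have := φ.2 (a, 1) (mem_stepS_one.2 ha)
          have h2 : ((a, 1) : V × ZMod 2) = (a, 0) + (0, 1) := by simp
          rw [h2, map_add] at this
          simpa using this⟩⟩
      invFun := fun p => ⟨p.1.1.coprod ((LinearMap.toSpanSingleton (ZMod 2) _ p.2.1)), by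
        rintro ⟨x, t⟩ hx
        unfold stepS at hx
        rw [Finset.mem_union, Finset.mem_image, Finset.mem_image] at hx
        rcases hx with ⟨s, hs, he⟩ | ⟨a, ha, he⟩
        · have := p.1.2 s hs
          rw [Prod.mk.injEq] at he
          obtain ⟨h1, h2⟩ := he
          subst h1 h2
          simpa using this
        · have := p.2.2 a ha
          rw [Prod.mk.injEq] at he
          obtain ⟨h1, h2⟩ := he
          subst h1 h2
          simpa using this⟩
      left_inv := by
        rintro ⟨φ, hφ⟩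
        apply Subtype.ext
        apply LinearMap.ext
        rintro ⟨x, t⟩
        have h2 : ((x, t) : V × ZMod 2) = (x, 0) + t • (0, 1) := by simp
        rw [h2, map_add, map_smul, map_add, map_smul]
        simp
        exact Or.inr (map_zero φ)
      right_inv := by
        rintro ⟨⟨φ, hφ⟩, ⟨w, hw⟩⟩
        have h1 : (φ.coprod (LinearMap.toSpanSingleton (ZMod 2) (Fin k → ZMod 2) w)).comp
            (LinearMap.inl (ZMod 2) V (ZMod 2)) = φ := by
          ext x
          simp
        have h2 : (φ.coprod (LinearMap.toSpanSingleton (ZMod 2) (Fin k → ZMod 2) w)) (0, 1) = w := by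
          simp
        simp only [Sigma.mk.injEq]
        constructor
        · exact Subtype.ext h1
        · refine (Subtype.heq_iff_coe_eq ?_).2 h2
          intro w'
          simp }
  have : Finite (V →ₗ[ZMod 2] (Fin k → ZMod 2)) := Module.finite_of_finite (ZMod 2)
  have : Fintype {φ : V →ₗ[ZMod 2] (Fin k → ZMod 2) // ∀ s ∈ S, φ s ≠ 0} := Fintype.ofFinite _
  have hw : ∀ φ : {φ : V →ₗ[ZMod 2] (Fin k → ZMod 2) // ∀ s ∈ S, φ s ≠ 0},
      (Nat.card {w : Fin k → ZMod 2 // ∀ a ∈ A, φ.1 a + w ≠ 0} : ℤ) = (2 : ℤ) ^ k - A.card := by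
    rintro ⟨φ, hφ⟩
    have hinj : Set.InjOn (fun a => - φ a) (A : Set V) := by
      intro a ha b hb hab
      by_contra hne
      apply hφ (a - b) (hA a ha b hb hne)
      rw [map_sub, sub_eq_zero]
      exact neg_injective hab
    have h1 : (Finset.univ.filter (fun w : Fin k → ZMod 2 => ∀ a ∈ A, φ a + w ≠ 0)) =
        (A.image (fun a => - φ a))ᶜ := by
      ext w
      simp only [Finset.mem_filter, Finset.mem_univ, true_and, Finset.mem_compl, Finset.mem_image,
        not_exists, not_and]
      constructor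
      · intro h a ha he
        exact h a ha (by rw [← he]; simp)
      · intro h a ha he
        exact h a ha (neg_eq_of_add_eq_zero_right he)
    have h3 := Finset.card_add_card_compl (A.image (fun a => - φ a))
    rw [Finset.card_image_of_injOn hinj, Fintype.card_fun, Fintype.card_fin, ZMod.card] at h3
    rw [Nat.card_eq_fintype_card, Fintype.card_subtype, h1]
    have h4 : ((A.card : ℤ) + ((A.image (fun a => - φ a))ᶜ.card : ℤ)) = 2 ^ k := by
      exact_mod_cast h3
    linarith
  unfold NN
  rw [Nat.card_congr e, Nat.card_sigma]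
  push_cast
  rw [Finset.sum_congr rfl (fun φ _ => hw φ), Finset.sum_const, nsmul_eq_mul,
    Nat.card_eq_fintype_card]
  rfl

end BogSt
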