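import Mathlib

/-!
# MP_e962e1_co: definitions (geometries, characteristic polynomial, modular flats)
-/

set_option autoImplicit false

namespace BogSt

/-- a geometry: no loops (`e = f`) and no parallel pairs -/
def IsGeometry {α : Type} (M : Matroid α) : Prop := ∀ e ∈ M.E, ∀ f ∈ M.E, M.Indep {e, f}

/-- representable over `GF(2)` -/
def IsBinary {α : Type} (M : Matroid α) : Prop :=
  ∃ (k : ℕ) (φ : α → Fin k → ZMod 2), ∀ I ⊆ M.E, (M.Indep I ↔ LinearIndepOn (ZMod 2) φ I)

open Classical in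
/-- the flats of a matroid on a finite type -/
noncomputable def flats {α : Type} [Fintype α] (M : Matroid α) : Finset (Finset α) :=
  Finset.univ.filter (fun X => M.IsFlat (X : Set α))

open Classical in
/-- `μ` is the Möbius function `μ(∅, ·)` of the lattice of flats -/
def IsMoebius {α : Type} [Fintype α] (M : Matroid α) (μ : Finset α → ℤ) : Prop :=
  ∀ X ∈ flats M, ∑ Y ∈ (flats M).filter (fun Y => Y ⊆ X), μ Y = if X = ∅ then 1 else 0

/-- the characteristic polynomial `∑ μ(∅, X) λ ^ (n - r(X))` -/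
noncomputable def charPoly {α : Type} [Fintype α] (M : Matroid α) (n : ℕ) (μ : Finset α → ℤ) :
    Polynomial ℤ :=
  ∑ X ∈ flats M, Polynomial.C (μ X) * Polynomial.X ^ (n - (M.eRk (X : Set α)).toNat)

/-- modular flats -/
def IsModular {α : Type} (M : Matroid α) (X : Set α) : Prop :=
  M.IsFlat X ∧ ∀ Y, M.IsFlat Y →
    M.eRk X + M.eRk Y = M.eRk (M.closure (X ∪ Y)) + M.eRk (X ∩ Y)

/-- a maximal chain of modular flats, `n` the rank -/
def Supersolvable {α : Type} (M : Matroid α) (n : ℕ) : Prop :=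
  ∃ F : ℕ → Set α, F 0 = ∅ ∧ F n = M.E ∧ (∀ i ≤ n, IsModular M (F i)) ∧ ∀ i < n, F i ⊂ F (i + 1)

end BogSt
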