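import Pool.Agent.Lib.BogSt.Mat
import Pool.Agent.Lib.BogSt.Defs
import Pool.Agent.Lib.BogSt.Count

/-!
# MP_e962e1_co: the Möbius function and the characteristic polynomial of `linMat S`
-/

set_option autoImplicit false

namespace BogSt

open Finset

variable {V : Type} [AddCommGroup V] [Module (ZMod 2) V] [Fintype V]

open Classical in
/-- closure of a finite set -/
noncomputable def cl (S A : Finset V) : Finset V :=
  S.filter (fun x => x ∈ Submodule.span (ZMod 2) (A : Set V))

open Classical in
/-- the Möbius function -/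
noncomputable def mu (S : Finset V) (X : Finset V) : ℤ :=
  ∑ A ∈ S.powerset.filter (fun A => cl S A = X), (-1 : ℤ) ^ A.card

theorem subset_cl {S A : Finset V} (h : A ⊆ S) : A ⊆ cl S A := by
  classical
  intro x hx
  unfold cl
  rw [Finset.mem_filter]
  exact ⟨h hx, Submodule.subset_span hx⟩

theorem span_cl {S A : Finset V} (h : A ⊆ S) :
    Submodule.span (ZMod 2) ((cl S A : Finset V) : Set V) = Submodule.span (ZMod 2) (A : Set V) := by
  classical
  apply le_antisymm
  · rw [Submodule.span_le]
    intro x hx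
    unfold cl at hx
    rw [Finset.mem_coe, Finset.mem_filter] at hx
    exact hx.2
  · exact Submodule.span_mono (by exact_mod_cast subset_cl h)

theorem mem_flats {S X : Finset V} : X ∈ flats (linMat (S : Set V)) ↔
    X ⊆ S ∧ ∀ x ∈ S, x ∈ Submodule.span (ZMod 2) (X : Set V) → x ∈ X := by
  classical
  unfold flats
  rw [Finset.mem_filter, isFlat_iff']
  constructor
  · rintro ⟨_, h1, h2⟩
    exact ⟨by exact_mod_cast h1, fun x hx hxX => by exact_mod_cast h2 x (by exact_mod_cast hx) hxX⟩
  · rintro ⟨h1, h2⟩
    exact ⟨Finset.mem_univ _, by exact_mod_cast h1, fun x hx hxX => by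
      exact_mod_cast h2 x (by exact_mod_cast hx) hxX⟩

theorem cl_mem_flats {S A : Finset V} (h : A ⊆ S) : cl S A ∈ flats (linMat (S : Set V)) := by
  classical
  rw [mem_flats]
  refine ⟨Finset.filter_subset _ _, ?_⟩
  intro x hx hxc
  rw [span_cl h] at hxc
  unfold cl
  rw [Finset.mem_filter]
  exact ⟨hx, hxc⟩

theorem cl_subset_iff {S A X : Finset V} (hA : A ⊆ S) (hX : X ∈ flats (linMat (S : Set V))) :
    cl S A ⊆ X ↔ A ⊆ X := by
  classical
  constructor
  · intro h
    exact (subset_cl hA).trans h
  · intro h x hx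
    rw [mem_flats] at hX
    unfold cl at hx
    rw [Finset.mem_filter] at hx
    exact hX.2 x hx.1 (Submodule.span_mono (by exact_mod_cast h) hx.2)

theorem isMoebius (S : Finset V) : IsMoebius (linMat (S : Set V)) (mu S) := by
  classical
  intro X hX
  unfold mu
  have h1 : ∑ Y ∈ (flats (linMat (S : Set V))).filter (fun Y => Y ⊆ X),
      ∑ A ∈ S.powerset.filter (fun A => cl S A = Y), (-1 : ℤ) ^ A.card =
      ∑ A ∈ X.powerset, (-1 : ℤ) ^ A.card := by
    have h2 := Finset.sum_fiberwise_of_maps_to (s := X.powerset)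
      (t := (flats (linMat (S : Set V))).filter (fun Y => Y ⊆ X)) (g := cl S) (by
        intro A hA
        rw [Finset.mem_powerset] at hA
        have hAS : A ⊆ S := hA.trans (mem_flats.1 hX).1
        rw [Finset.mem_filter]
        exact ⟨cl_mem_flats hAS, (cl_subset_iff hAS hX).2 hA⟩) (fun A => (-1 : ℤ) ^ A.card)
    rw [← h2]
    apply Finset.sum_congr rfl
    intro Y hY
    rw [Finset.mem_filter] at hY
    apply Finset.sum_congr _ (fun _ _ => rfl)
    ext A
    simp only [Finset.mem_filter, Finset.mem_powerset]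
    constructor
    · rintro ⟨hA, he⟩
      refine ⟨?_, he⟩
      rw [← cl_subset_iff hA hX, he]
      exact hY.2
    · rintro ⟨hA, he⟩
      exact ⟨hA.trans (mem_flats.1 hX).1, he⟩
  rw [h1, Finset.sum_powerset_neg_one_pow_card]

/-- subset expansion of the characteristic polynomial -/
theorem charPoly_eq (S : Finset V) (n : ℕ) :
    charPoly (linMat (S : Set V)) n (mu S) =
      ∑ A ∈ S.powerset, (-1 : Polynomial ℤ) ^ A.card * Polynomial.X ^ (n - rk' (A : Set V)) := by
  classical
  have h2 := Finset.sum_fiberwise_of_maps_to (s := S.powerset)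
      (t := flats (linMat (S : Set V))) (g := cl S) (by
        intro A hA
        rw [Finset.mem_powerset] at hA
        exact cl_mem_flats hA)
      (fun A => (-1 : Polynomial ℤ) ^ A.card * Polynomial.X ^ (n - rk' (A : Set V)))
  rw [← h2]
  unfold charPoly mu
  apply Finset.sum_congr rfl
  intro X hX
  rw [map_sum, Finset.sum_mul]
  apply Finset.sum_congr rfl
  intro A hA
  rw [Finset.mem_filter, Finset.mem_powerset] at hA
  have h3 : ((linMat (S : Set V)).eRk (X : Set V)).toNat = rk' (A : Set V) := by
    rw [eRk_eq (by exact_mod_cast (mem_flats.1 hX).1), ENat.toNat_coe, ← hA.2]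
    unfold rk'
    rw [span_cl hA.1]
  rw [h3]
  simp

theorem charPoly_of_NN {S : Finset V} {n : ℕ} (hn : Module.finrank (ZMod 2) V = n)
    (h : ∀ k, (NN k S : ℤ) = ∏ i ∈ Finset.range n, ((2 : ℤ) ^ k - (i + 1))) :
    charPoly (linMat (S : Set V)) n (mu S) =
      ∏ i ∈ Finset.range n, (Polynomial.X - Polynomial.C ((i : ℤ) + 1)) := by
  classical
  apply Polynomial.eq_of_infinite_eval_eq
  have hinf : (Set.range (fun k : ℕ => (2 : ℤ) ^ k)).Infinite := by
    apply Set.infinite_range_of_injective
    intro a b hab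
    have : (2 : ℤ) ^ a = 2 ^ b := hab
    exact pow_right_injective₀ (by norm_num) (by norm_num) this
  apply hinf.mono
  rintro _ ⟨k, rfl⟩
  rw [Set.mem_ofPred_eq, charPoly_eq, Polynomial.eval_prod, Polynomial.eval_finsetSum]
  have h1 := NN_eq k S
  rw [hn] at h1
  rw [h] at h1
  simp only [Polynomial.eval_mul, Polynomial.eval_pow, Polynomial.eval_neg, Polynomial.eval_one,
    Polynomial.eval_X, Polynomial.eval_sub, Polynomial.eval_C]
  rw [h1]
  rfl

end BogSt
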