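import Pool.Agent.Lib.MP_e962e1_co.Core
import Pool.Agent.Lib.BogSt.Count

/-!
# MP_e962e1_co: the geometries of every rank `n ≥ 6`
-/

set_option autoImplicit false

namespace BogSt

open Finset Pool.E962e1

/-- the properties used in the induction -/
structure Good {V : Type} [AddCommGroup V] [Module (ZMod 2) V] (S : Finset V) (n : ℕ) : Prop where
  zero : (0 : V) ∉ S
  fr : Module.finrank (ZMod 2) V = n
  span : Submodule.span (ZMod 2) (S : Set V) = ⊤
  cnt : ∀ k, (NN k S : ℤ) = ∏ i ∈ Finset.range n, ((2 : ℤ) ^ k - (i + 1))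
  bigW : ∃ W : Submodule (ZMod 2) V, (∀ w ∈ W, w ≠ 0 → w ∈ S) ∧ n + 1 ≤ Nat.card W
  core : ∃ U : Submodule (ZMod 2) V, Module.finrank (ZMod 2) U = 6 ∧
    Submodule.span (ZMod 2) ((S : Set V) ∩ U) = U ∧
    ∀ H : Submodule (ZMod 2) V, H ≤ U → Module.finrank (ZMod 2) H = 5 →
      ∃ a ∈ S, ∃ b ∈ S, a ∈ U ∧ b ∈ U ∧ a ∉ H ∧ b ∉ H ∧ a ≠ b ∧ a + b ∉ S

/-- the subspace of the first three coordinates -/
def W3 : Submodule (ZMod 2) V where
  carrier := {x | x 3 = 0 ∧ x 4 = 0 ∧ x 5 = 0}
  add_mem' := by
    rintro a b ⟨h1, h2, h3⟩ ⟨h4, h5, h6⟩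
    refine ⟨?_, ?_, ?_⟩
    · rw [Pi.add_apply, h1, h4, add_zero]
    · rw [Pi.add_apply, h2, h5, add_zero]
    · rw [Pi.add_apply, h3, h6, add_zero]
  zero_mem' := ⟨rfl, rfl, rfl⟩
  smul_mem' := by
    rintro c x ⟨h1, h2, h3⟩
    refine ⟨?_, ?_, ?_⟩
    · rw [Pi.smul_apply, h1, smul_zero]
    · rw [Pi.smul_apply, h2, smul_zero]
    · rw [Pi.smul_apply, h3, smul_zero]

theorem W3_sub : ∀ w : V, (w 3 = 0 ∧ w 4 = 0 ∧ w 5 = 0) → w ≠ 0 → w ∈ SV.toFinset := by
  decide +kernel

theorem W3_card : Nat.card W3 = 8 := by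
  have h : Nat.card W3 = Nat.card {x : V // x 3 = 0 ∧ x 4 = 0 ∧ x 5 = 0} := rfl
  rw [h, Nat.card_eq_fintype_card]
  decide +kernel

theorem good_six : Good SV.toFinset 6 where
  zero := by decide +kernel
  fr := by simp
  span := span_top
  cnt := by
    intro k
    have h1 := NN_eq k SV.toFinset
    have h2 := congrArg (Polynomial.eval ((2 : ℤ) ^ k)) charpoly
    rw [Polynomial.eval_prod, Polynomial.eval_finsetSum] at h2
    have hfr : Module.finrank (ZMod 2)
      ↥(Submodule.span (ZMod 2) ((SV.toFinset : Finset V) : Set V)) = Module.finrank (ZMod 2) V := by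
      rw [span_top, finrank_top]
    rw [hfr] at h2
    simp only [Polynomial.eval_mul, Polynomial.eval_pow, Polynomial.eval_neg, Polynomial.eval_one,
      Polynomial.eval_X, Polynomial.eval_sub, Polynomial.eval_C] at h2
    rw [h1, ← h2]
  bigW := by
    refine ⟨W3, fun w hw h0 => W3_sub w hw h0, ?_⟩
    rw [W3_card]
    norm_num
  core := by
    refine ⟨⊤, by rw [finrank_top]; simp, ?_, ?_⟩
    · rw [Submodule.top_coe, Set.inter_univ, span_top]
    · intro H _ hfin
      have hlt : H < ⊤ := by
        rw [lt_top_iff_ne_top]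
        intro htop
        rw [htop, finrank_top] at hfin
        simp at hfin
      obtain ⟨f, hf0, hf⟩ := Submodule.exists_le_ker_of_lt_top H hlt
      set h : Fin 6 → ZMod 2 := fun i => f (Pi.single i 1) with hh
      have hfx : ∀ x : V, f x = ∑ i, h i * x i := by
        intro x
        conv_lhs => rw [← Finset.univ_sum_single x]
        rw [map_sum]
        apply Finset.sum_congr rfl
        intro i _
        have : (Pi.single i (x i) : V) = x i • Pi.single i 1 := by
          rw [← Pi.single_smul, smul_eq_mul, mul_one]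
        rw [this, map_smul, smul_eq_mul, mul_comm]
      have hne : h ≠ 0 := by
        intro hz
        apply hf0
        ext1 i
        ext
        have := congrFun hz i
        simpa [hh] using this
      obtain ⟨a, ha, b, hb, fa, fb, hab, habS⟩ := no_modular h hne
      rw [← hfx] at fa fb
      refine ⟨a, List.mem_toFinset.2 ha, b, List.mem_toFinset.2 hb, trivial, trivial, ?_, ?_, hab,
        fun h => habS (List.mem_toFinset.1 h)⟩
      · intro haH
        have := hf haH
        rw [LinearMap.mem_ker, fa] at this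
        exact one_ne_zero this
      · intro hbH
        have := hf hbH
        rw [LinearMap.mem_ker, fb] at this
        exact one_ne_zero this

theorem finrank_map_inl {V : Type} [AddCommGroup V] [Module (ZMod 2) V]
    (U : Submodule (ZMod 2) V) :
    Module.finrank (ZMod 2) (U.map (LinearMap.inl (ZMod 2) V (ZMod 2))) =
      Module.finrank (ZMod 2) U :=
  (LinearEquiv.finrank_eq (Submodule.equivMapOfInjective _ LinearMap.inl_injective U)).symm

theorem good_step {V : Type} [AddCommGroup V] [Module (ZMod 2) V] [Fintype V] [DecidableEq V]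
    {S : Finset V} {n : ℕ} (h : Good S n) : ∃ A : Finset V, Good (stepS S A) (n + 1) := by
  classical
  obtain ⟨W, hW, hWc⟩ := h.bigW
  obtain ⟨U, hU, hUs, hUc⟩ := h.core
  have hexA : ∃ A : Finset V, A.card = n + 1 ∧ (∀ a ∈ A, a ∈ W) ∧
      (n + 2 ≤ Nat.card W ∨ ∀ w ∈ W, w ∈ A) := by
    have hc : ((Finset.univ.filter (fun x => x ∈ W)) : Finset V).card = Nat.card W := by
      rw [Nat.card_eq_fintype_card, Fintype.card_subtype]
    obtain ⟨A, hA, hAc⟩ := Finset.exists_subset_card_eq (s := Finset.univ.filter (fun x => x ∈ W))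
      (n := n + 1) (by rw [hc]; exact hWc)
    refine ⟨A, hAc, fun a ha => (Finset.mem_filter.1 (hA ha)).2, ?_⟩
    by_cases hbig : n + 2 ≤ Nat.card W
    · exact Or.inl hbig
    · right
      have heq : A = Finset.univ.filter (fun x => x ∈ W) := by
        apply Finset.eq_of_subset_of_card_le hA
        rw [hc, hAc]
        omega
      intro w hw
      rw [heq, Finset.mem_filter]
      exact ⟨Finset.mem_univ _, hw⟩
  obtain ⟨A, hAc, hAW, hAll⟩ := hexA
  have hmap : ∀ X : Set V, X ⊆ S → Submodule.map (LinearMap.inl (ZMod 2) V (ZMod 2))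
      (Submodule.span (ZMod 2) X) ≤ Submodule.span (ZMod 2) ((stepS S A : Finset (V × ZMod 2)) : Set (V × ZMod 2)) := by
    intro X hX
    rw [Submodule.map_span]
    apply Submodule.span_mono
    rintro _ ⟨x, hx, rfl⟩
    exact mem_stepS_zero.2 (hX hx)
  refine ⟨A, ?_⟩
  constructor
  · intro h0
    exact h.zero (mem_stepS_zero.1 h0)
  · rw [Module.finrank_prod, h.fr, Module.finrank_self]
  · rw [eq_top_iff]
    rintro ⟨x, t⟩ _
    have h1 : ∀ x : V, ((x, 0) : V × ZMod 2) ∈
        Submodule.span (ZMod 2) ((stepS S A : Finset (V × ZMod 2)) : Set (V × ZMod 2)) := by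
      intro x
      apply hmap (S : Set V) (le_refl _)
      rw [h.span]
      exact ⟨x, trivial, rfl⟩
    have hne : A.Nonempty := by
      rw [← Finset.card_pos, hAc]
      omega
    obtain ⟨a, ha⟩ := hne
    have h2 : ((0, 1) : V × ZMod 2) ∈
        Submodule.span (ZMod 2) ((stepS S A : Finset (V × ZMod 2)) : Set (V × ZMod 2)) := by
      have h3 : ((0, 1) : V × ZMod 2) = (a, 1) - (a, 0) := by simp
      rw [h3]
      exact Submodule.sub_mem _ (Submodule.subset_span (mem_stepS_one.2 ha)) (h1 a)
    have h4 : ((x, t) : V × ZMod 2) = (x, 0) + t • (0, 1) := by simp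
    rw [h4]
    exact Submodule.add_mem _ (h1 x) (Submodule.smul_mem _ _ h2)
  · intro k
    rw [NN_step k S A, h.cnt k, Finset.prod_range_succ, hAc]
    · push_cast
      rfl
    · intro a ha b hb hab
      exact hW _ (W.sub_mem (hAW a ha) (hAW b hb)) (sub_ne_zero.2 hab)
  · rcases hAll with hbig | hall
    · refine ⟨W.prod ⊥, ?_, ?_⟩
      · rintro ⟨w, t⟩ hw h0
        rw [Submodule.mem_prod] at hw
        obtain ⟨h1, h2⟩ := hw
        have h3 : t = 0 := h2
        subst h3
        apply mem_stepS_zero.2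
        apply hW w h1
        rintro rfl
        exact h0 rfl
      · have e : W ≃ (W.prod (⊥ : Submodule (ZMod 2) (ZMod 2))) :=
          { toFun := fun w => ⟨(w.1, 0), Submodule.mem_prod.2 ⟨w.2, Submodule.zero_mem _⟩⟩
            invFun := fun w => ⟨w.1.1, (Submodule.mem_prod.1 w.2).1⟩
            left_inv := fun w => rfl
            right_inv := by
              rintro ⟨⟨w, t⟩, hw⟩
              have h3 : t = 0 := (Submodule.mem_prod.1 hw).2
              subst h3
              rfl }
        rw [← Nat.card_congr e]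
        exact hbig
    · refine ⟨W.prod ⊤, ?_, ?_⟩
      · rintro ⟨w, t⟩ hw h0
        rw [Submodule.mem_prod] at hw
        obtain ⟨h1, _⟩ := hw
        have h3 : t = 0 ∨ t = 1 := by
          have : ∀ z : ZMod 2, z = 0 ∨ z = 1 := by decide
          exact this t
        rcases h3 with rfl | rfl
        · apply mem_stepS_zero.2
          apply hW w h1
          rintro rfl
          exact h0 rfl
        · exact mem_stepS_one.2 (hall w h1)
      · have e : W × ZMod 2 ≃ (W.prod (⊤ : Submodule (ZMod 2) (ZMod 2))) :=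
          { toFun := fun w => ⟨(w.1.1, w.2), Submodule.mem_prod.2 ⟨w.1.2, trivial⟩⟩
            invFun := fun w => (⟨w.1.1, (Submodule.mem_prod.1 w.2).1⟩, w.1.2)
            left_inv := fun w => rfl
            right_inv := fun w => rfl }
        rw [← Nat.card_congr e, Nat.card_prod, Nat.card_zmod]
        omega
  · refine ⟨U.map (LinearMap.inl (ZMod 2) V (ZMod 2)), ?_, ?_, ?_⟩
    · rw [finrank_map_inl]
      exact hU
    · apply le_antisymm
      · rw [Submodule.span_le]
        exact Set.inter_subset_right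
      · conv_lhs => rw [← hUs]
        rw [Submodule.map_span]
        apply Submodule.span_mono
        rintro _ ⟨x, ⟨hxS, hxU⟩, rfl⟩
        exact ⟨mem_stepS_zero.2 hxS, ⟨x, hxU, rfl⟩⟩
    · intro H hH hfin
      have hH1 : (H.comap (LinearMap.inl (ZMod 2) V (ZMod 2))).map
          (LinearMap.inl (ZMod 2) V (ZMod 2)) = H := by
        rw [Submodule.map_comap_eq]
        apply inf_eq_right.2
        refine hH.trans ?_
        exact LinearMap.map_le_range
      have hH2 : H.comap (LinearMap.inl (ZMod 2) V (ZMod 2)) ≤ U := by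
        intro x hx
        obtain ⟨y, hy, he⟩ := hH hx
        have : y = x := LinearMap.inl_injective he
        rw [← this]
        exact hy
      have hH3 : Module.finrank (ZMod 2) (H.comap (LinearMap.inl (ZMod 2) V (ZMod 2))) = 5 := by
        rw [← hH1, finrank_map_inl] at hfin
        exact hfin
      obtain ⟨a, ha, b, hb, haU, hbU, haH, hbH, hab, habS⟩ := hUc _ hH2 hH3
      refine ⟨(a, 0), mem_stepS_zero.2 ha, (b, 0), mem_stepS_zero.2 hb, ⟨a, haU, rfl⟩,
        ⟨b, hbU, rfl⟩, haH, hbH, ?_, ?_⟩
      · intro he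
        exact hab (congrArg Prod.fst he)
      · intro he
        apply habS
        have : ((a, 0) + (b, 0) : V × ZMod 2) = (a + b, 0) := by simp
        rw [this] at he
        exact mem_stepS_zero.1 he

theorem exists_good : ∀ n : ℕ, 6 ≤ n → ∃ (V : Type) (_ : AddCommGroup V) (_ : Module (ZMod 2) V)
    (_ : Fintype V) (S : Finset V), Good S n := by
  intro n hn
  induction n, hn using Nat.le_induction with
  | base => exact ⟨V, inferInstance, inferInstance, inferInstance, SV.toFinset, good_six⟩
  | succ n _ ih =>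
    classical
    obtain ⟨V, i1, i2, i3, S, hS⟩ := ih
    obtain ⟨A, hA⟩ := good_step hS
    exact ⟨V × ZMod 2, inferInstance, inferInstance, inferInstance, stepS S A, hA⟩

end BogSt
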