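import Pool.Agent.Lib.BogSt.Main
import Pool.Agent.Lib.MP_e962e1_co.Geom

/-!
# MP_e962e1_co: all ranks, in terms of the definitions of `Lib/MP_e962e1_co/Geom`
-/

set_option autoImplicit false

namespace BogSt

open Finset

section
variable {V : Type} [AddCommGroup V] [Module (ZMod 2) V] [Fintype V]

theorem rank_eq {S : Set V} {X : Set V} (hX : X ⊆ S) : Pool.E962e1.rank (linMat S) X = rk' X := by
  unfold Pool.E962e1.rank
  rw [eRk_eq hX, ENat.toNat_natCast]

theorem toModular {S : Set V} {F : Set V} (hF : Pool.E962e1.IsModularFlat (linMat S) F) :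
    IsModular (linMat S) F := by
  refine ⟨hF.1, fun Y hY => ?_⟩
  have hFS : F ⊆ S := (isFlat_iff'.1 hF.1).1
  have hYS : Y ⊆ S := (isFlat_iff'.1 hY).1
  have h := hF.2 Y hY
  have hcl : (linMat S).closure (F ∪ Y) ⊆ S := Matroid.closure_subset_ground _ _
  rw [rank_eq hFS, rank_eq hYS, rank_eq hcl, rank_eq (Set.inter_subset_left.trans hFS)] at h
  rw [eRk_eq hFS, eRk_eq hYS, eRk_eq hcl, eRk_eq (Set.inter_subset_left.trans hFS)]
  exact_mod_cast h

theorem closure_empty' {S : Finset V} (h0 : (0 : V) ∉ S) : (linMat (S : Set V)).closure ∅ = ∅ := by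
  rw [closure_eq' (Set.empty_subset _), Submodule.span_empty]
  ext x
  simp only [Set.mem_inter_iff, SetLike.mem_coe, Submodule.mem_bot, Set.mem_empty_iff_false,
    iff_false, not_and]
  rintro hx rfl
  exact h0 (by exact_mod_cast hx)

theorem rank_ground' {S : Finset V} {n : ℕ} (h : Good S n) :
    Pool.E962e1.rank (linMat (S : Set V)) (linMat (S : Set V)).E = n := by
  rw [linMat_E, rank_eq (le_refl _)]
  unfold rk'
  rw [h.span, finrank_top, h.fr]

theorem charPoly_final {S : Finset V} {n : ℕ} (h : Good S n) :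
    Pool.E962e1.charPoly (linMat (S : Set V)) =
      ∏ i ∈ Finset.range n, (Polynomial.X - Polynomial.C ((i : ℤ) + 1)) := by
  rw [← charPoly_of_NN h.fr h.cnt, charPoly_eq,
    Pool.E962e1.charPoly_eq (linMat (S : Set V)) S rfl (closure_empty' h.zero), rank_ground' h]
  apply Finset.sum_congr rfl
  intro A hA
  rw [rank_eq (by exact_mod_cast Finset.mem_powerset.mp hA)]

theorem not_supersolvable' {S : Finset V} {n : ℕ} (h : Good S n) :
    ¬ Pool.E962e1.IsSupersolvable (linMat (S : Set V)) := by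
  rintro ⟨F, h0, hn, hlt, hmod⟩
  rw [rank_ground' h] at hn hlt hmod
  rw [closure_empty' h.zero] at h0
  exact not_supersolvable h ⟨F, h0, hn, fun i hi => toModular (hmod i hi), hlt⟩

end

theorem card_step {V : Type} [AddCommGroup V] [DecidableEq V] (S A : Finset V) :
    (stepS S A).card = S.card + A.card := by
  unfold stepS
  rw [Finset.card_union_of_disjoint, Finset.card_image_of_injective, Finset.card_image_of_injective]
  · intro a b hab
    exact congrArg Prod.fst hab
  · intro a b hab
    exact congrArg Prod.fst hab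
  · rw [Finset.disjoint_left]
    rintro x hx hx'
    rw [Finset.mem_image] at hx hx'
    obtain ⟨a, _, rfl⟩ := hx
    obtain ⟨b, _, hb⟩ := hx'
    have := congrArg Prod.snd hb
    exact one_ne_zero this

theorem final (n : ℕ) (hn : 6 ≤ n) : ∃ (α : Type) (_ : Finite α) (M : Matroid α),
    Pool.E962e1.IsGeometry M ∧ Pool.E962e1.IsBinary M ∧ Pool.E962e1.rank M M.E = n ∧
      Pool.E962e1.charPoly M =
        ∏ i ∈ Finset.range n, (Polynomial.X - Polynomial.C ((i : ℤ) + 1)) ∧
      ¬ Pool.E962e1.IsSupersolvable M ∧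
      (n = 6 → ∀ F, Pool.E962e1.IsModularFlat M F → Pool.E962e1.rank M F ≠ 5) := by
  obtain ⟨V, i1, i2, i3, S, hS⟩ := exists_good n hn
  refine ⟨V, inferInstance, linMat (S : Set V), ⟨S.finite_toSet, isGeometry hS.zero⟩, isBinary S,
    rank_ground' hS, charPoly_final hS, not_supersolvable' hS, ?_⟩
  rintro rfl F hF h5
  have hFS : F ⊆ (S : Set V) := (isFlat_iff'.1 hF.1).1
  apply no_modular_copoint hS F (toModular hF)
  rw [rank_eq hFS] at h5
  rw [eRk_eq hFS, h5]
  rfl

end BogSt
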