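import Pool.Agent.Lib.BogSt.Chi
import Pool.Agent.Lib.BogSt.Fam

/-!
# MP_e962e1_co: assembly
-/

set_option autoImplicit false

namespace BogSt

open Finset

section
variable {V : Type} [AddCommGroup V] [Module (ZMod 2) V] [Fintype V]

omit [Fintype V] in
theorem zmod_two_cases (z : ZMod 2) : z = 0 ∨ z = 1 := by
  have : ∀ z : ZMod 2, z = 0 ∨ z = 1 := by decide
  exact this z

omit [Fintype V] in
theorem indep_pair {e f : V} (he : e ≠ 0) (hf : f ≠ 0) :
    LinearIndepOn (ZMod 2) id ({e, f} : Set V) := by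
  have h1 : LinearIndepOn (ZMod 2) id ({f} : Set V) := by
    have h2 : ({f} : Set V) = insert f ∅ := by simp
    rw [h2]
    apply LinearIndepOn.id_insert (linearIndepOn_empty _ _)
    rw [Submodule.span_empty]
    exact hf
  by_cases hef : e = f
  · subst hef
    rw [Set.pair_eq_singleton]
    exact h1
  · apply LinearIndepOn.id_insert h1
    rw [Submodule.mem_span_singleton]
    rintro ⟨c, hc⟩
    rcases zmod_two_cases c with rfl | rfl
    · rw [zero_smul] at hc
      exact he hc.symm
    · rw [one_smul] at hc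
      exact hef hc.symm

theorem isGeometry {S : Finset V} (h0 : (0 : V) ∉ S) : IsGeometry (linMat (S : Set V)) := by
  intro e he f hf
  have he' : e ∈ S := he
  have hf' : f ∈ S := hf
  rw [linMat_indep]
  refine ⟨?_, ?_⟩
  · intro x hx
    rcases hx with rfl | rfl
    · exact he
    · exact hf
  · apply indep_pair
    · rintro rfl
      exact h0 he'
    · rintro rfl
      exact h0 hf'

theorem isBinary (S : Finset V) : IsBinary (linMat (S : Set V)) := by
  refine ⟨Module.finrank (ZMod 2) V, (Module.finBasis (ZMod 2) V).equivFun, ?_⟩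
  intro I hI
  rw [linMat_indep]
  have h1 := LinearMap.linearIndependent_iff (v := fun x : I => id (x : V))
    ((Module.finBasis (ZMod 2) V).equivFun : V →ₗ[ZMod 2] (Fin (Module.finrank (ZMod 2) V) → ZMod 2))
    (LinearEquiv.ker _)
  constructor
  · rintro ⟨_, h⟩
    exact h1.2 h
  · intro h
    exact ⟨hI, h1.1 h⟩

theorem eRank_eq {S : Finset V} {n : ℕ} (h : Good S n) : (linMat (S : Set V)).eRank = (n : ℕ∞) := by
  rw [Matroid.eRank_def, linMat_E, eRk_eq (le_refl _)]
  unfold rk'
  rw [h.span, finrank_top, h.fr]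

/-- modular flats in terms of `rk'` -/
theorem modular_rk {S : Set V} {F : Set V} (hF : IsModular (linMat S) F) {Y : Set V}
    (hY : (linMat S).IsFlat Y) : rk' F + rk' Y = rk' (F ∪ Y) + rk' (F ∩ Y) := by
  have h := hF.2 Y hY
  have hFS : F ⊆ S := (isFlat_iff'.1 hF.1).1
  have hYS : Y ⊆ S := (isFlat_iff'.1 hY).1
  rw [Matroid.eRk_closure_eq, eRk_eq hFS, eRk_eq hYS, eRk_eq (Set.union_subset hFS hYS),
    eRk_eq (Set.inter_subset_left.trans hFS)] at h
  exact_mod_cast h

theorem no_five {S : Finset V} (h0 : (0 : V) ∉ S) {U : Submodule (ZMod 2) V}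
    (hU : Module.finrank (ZMod 2) U = 6)
    (hc : ∀ H : Submodule (ZMod 2) V, H ≤ U → Module.finrank (ZMod 2) H = 5 →
      ∃ a ∈ S, ∃ b ∈ S, a ∈ U ∧ b ∈ U ∧ a ∉ H ∧ b ∉ H ∧ a ≠ b ∧ a + b ∉ S)
    {F : Set V} (hF : IsModular (linMat (S : Set V)) F) :
    rk' (F ∩ ((S : Set V) ∩ U)) ≠ 5 := by
  intro h5
  have hFS : F ⊆ (S : Set V) := (isFlat_iff'.1 hF.1).1
  have hHU : Submodule.span (ZMod 2) (F ∩ ((S : Set V) ∩ U)) ≤ U := by
    rw [Submodule.span_le]
    intro x hx
    exact hx.2.2
  obtain ⟨a, ha, b, hb, haU, hbU, haH, hbH, hab, habS⟩ := hc _ hHU h5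
  have ha0 : a ≠ 0 := by
    rintro rfl
    exact h0 ha
  have hb0 : b ≠ 0 := by
    rintro rfl
    exact h0 hb
  have haF : a ∉ F := fun h => haH (Submodule.subset_span ⟨h, ha, haU⟩)
  have hbF : b ∉ F := fun h => hbH (Submodule.subset_span ⟨h, hb, hbU⟩)
  have hYS : ({a, b} : Set V) ⊆ (S : Set V) := by
    intro x hx
    rcases hx with rfl | rfl
    · exact ha
    · exact hb
  have hY : (linMat (S : Set V)).IsFlat {a, b} := by
    rw [isFlat_iff']
    refine ⟨hYS, ?_⟩
    intro x hx hxs
    obtain ⟨s, t, rfl⟩ := Submodule.mem_span_pair.1 hxs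
    rcases zmod_two_cases s with rfl | rfl <;> rcases zmod_two_cases t with rfl | rfl
    · exfalso
      apply h0
      simpa using hx
    · right
      simp
    · left
      simp
    · exfalso
      apply habS
      simpa using hx
  have hYr : rk' ({a, b} : Set V) = 2 := by
    rw [rk_of_indep (indep_pair ha0 hb0), Set.ncard_pair hab]
  have hFY : F ∩ {a, b} = ∅ := by
    ext x
    simp only [Set.mem_inter_iff, Set.mem_insert_iff, Set.mem_singleton_iff,
      Set.mem_empty_iff_false, iff_false]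
    rintro ⟨h1, rfl | rfl⟩
    · exact haF h1
    · exact hbF h1
  have hemp : rk' (∅ : Set V) = 0 := by
    unfold rk'
    rw [Submodule.span_empty, finrank_bot]
  have m1 := modular_rk hF hY
  rw [hFY, hemp, hYr] at m1
  set Z : Set V := (S : Set V) ∩ Submodule.span (ZMod 2) ((F ∩ ((S : Set V) ∩ U)) ∪ {a, b}) with hZ
  have hZs : Submodule.span (ZMod 2) Z =
      Submodule.span (ZMod 2) ((F ∩ ((S : Set V) ∩ U)) ∪ {a, b}) := by
    apply le_antisymm
    · rw [Submodule.span_le]
      exact Set.inter_subset_right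
    · apply Submodule.span_mono
      intro x hx
      refine ⟨?_, Submodule.subset_span hx⟩
      rcases hx with hx | hx
      · exact hx.2.1
      · exact hYS hx
  have hZf : (linMat (S : Set V)).IsFlat Z := by
    rw [isFlat_iff']
    refine ⟨Set.inter_subset_left, ?_⟩
    intro x hx hxs
    rw [hZs] at hxs
    exact ⟨hx, hxs⟩
  have hZU : Submodule.span (ZMod 2) ((F ∩ ((S : Set V) ∩ U)) ∪ {a, b}) ≤ U := by
    rw [Submodule.span_le]
    rintro x (hx | rfl | rfl)
    · exact hx.2.2
    · exact haU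
    · exact hbU
  have hFZ : F ∩ Z = F ∩ ((S : Set V) ∩ U) := by
    ext x
    constructor
    · rintro ⟨h1, h2, h3⟩
      exact ⟨h1, h2, hZU h3⟩
    · rintro ⟨h1, h2, h3⟩
      exact ⟨h1, h2, Submodule.subset_span (Or.inl ⟨h1, h2, h3⟩)⟩
  have hFZu : rk' (F ∪ Z) = rk' (F ∪ {a, b}) := by
    have : Submodule.span (ZMod 2) (F ∪ Z) = Submodule.span (ZMod 2) (F ∪ {a, b}) := by
      apply le_antisymm
      · rw [Submodule.span_le]
        rintro x (hx | hx)
        · exact Submodule.subset_span (Or.inl hx)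
        · have h1 : Submodule.span (ZMod 2) ((F ∩ ((S : Set V) ∩ U)) ∪ {a, b}) ≤
              Submodule.span (ZMod 2) (F ∪ {a, b}) := by
            apply Submodule.span_mono
            exact Set.union_subset_union_left _ Set.inter_subset_left
          exact h1 hx.2
      · apply Submodule.span_mono
        apply Set.union_subset_union_right
        intro x hx
        exact ⟨hYS hx, Submodule.subset_span (Or.inr hx)⟩
    unfold rk'
    rw [this]
  have m2 := modular_rk hF hZf
  rw [hFZ, hFZu, h5] at m2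
  have h7 : rk' Z ≤ 6 := by
    unfold rk'
    rw [hZs, ← hU]
    exact Submodule.finrank_mono hZU
  omega

theorem flat_ssubset_rk {S F G : Set V} (hF : (linMat S).IsFlat F) (hG : (linMat S).IsFlat G)
    (h : F ⊂ G) : rk' F < rk' G := by
  rw [isFlat_iff'] at hF hG
  refine lt_of_le_of_ne (rk_mono' h.subset) ?_
  intro he
  have h1 := Submodule.eq_of_le_of_finrank_eq (Submodule.span_mono (R := ZMod 2) h.subset) he
  apply h.2
  intro x hx
  apply hF.2 x (hG.1 hx)
  rw [h1]
  exact Submodule.subset_span hx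

theorem not_supersolvable {S : Finset V} {n : ℕ} (h : Good S n) :
    ¬ Supersolvable (linMat (S : Set V)) n := by
  rintro ⟨F, hF0, hFn, hmod, hchain⟩
  obtain ⟨U, hU, hUs, hUc⟩ := h.core
  have hemp : rk' (∅ : Set V) = 0 := by
    unfold rk'
    rw [Submodule.span_empty, finrank_bot]
  have hFn' : F n = (S : Set V) := hFn
  have hX : (linMat (S : Set V)).IsFlat ((S : Set V) ∩ U) := by
    rw [isFlat_iff', hUs]
    exact ⟨Set.inter_subset_left, fun x hx hxU => ⟨hx, hxU⟩⟩
  have hXr : rk' ((S : Set V) ∩ U) = 6 := by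
    unfold rk'
    rw [hUs, hU]
  have hr : ∀ i j, i + j ≤ n → rk' (F i) + j ≤ rk' (F (i + j)) := by
    intro i j
    induction j with
    | zero => intro _; simp
    | succ j ih =>
      intro hj
      have h1 := ih (by omega)
      have h2 := flat_ssubset_rk (hmod (i + j) (by omega)).1 (hmod (i + j + 1) (by omega)).1
        (hchain (i + j) (by omega))
      have h3 : i + (j + 1) = i + j + 1 := by omega
      rw [h3]
      omega
  have hSn : rk' (F n) = n := by
    rw [hFn']
    unfold rk'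
    rw [h.span, finrank_top, h.fr]
  have hri : ∀ i ≤ n, rk' (F i) = i := by
    intro i hi
    have h1 := hr 0 i (by omega)
    rw [hF0, hemp, zero_add] at h1
    have h2 := hr i (n - i) (by omega)
    rw [Nat.add_sub_cancel' hi, hSn] at h2
    omega
  have hg : ∀ i ≤ n, i + 6 = rk' (F i ∪ ((S : Set V) ∩ U)) + rk' (F i ∩ ((S : Set V) ∩ U)) := by
    intro i hi
    have := modular_rk (hmod i hi) hX
    rw [hri i hi, hXr] at this
    exact this
  have hstep : ∀ i < n, rk' (F (i + 1) ∩ ((S : Set V) ∩ U)) ≤ rk' (F i ∩ ((S : Set V) ∩ U)) + 1 := by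
    intro i hi
    have h1 := hg i hi.le
    have h2 := hg (i + 1) hi
    have h3 : rk' (F i ∪ ((S : Set V) ∩ U)) ≤ rk' (F (i + 1) ∪ ((S : Set V) ∩ U)) :=
      rk_mono' (Set.union_subset_union_left _ (hchain i hi).subset)
    omega
  have hex : ∃ i, i ≤ n ∧ 5 ≤ rk' (F i ∩ ((S : Set V) ∩ U)) := by
    refine ⟨n, le_refl _, ?_⟩
    rw [hFn', Set.inter_eq_self_of_subset_right Set.inter_subset_left, hXr]
    norm_num
  classical
  have hi := Nat.find_spec hex
  have hmin := fun j => Nat.find_min hex (m := j)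
  set i := Nat.find hex with hidef
  have hi0 : i ≠ 0 := by
    intro h0
    rw [h0, hF0, Set.empty_inter, hemp] at hi
    omega
  obtain ⟨j, hj⟩ := Nat.exists_eq_succ_of_ne_zero hi0
  have hj1 := hmin j (by omega)
  have hjn : j < n := by omega
  have h5 : rk' (F i ∩ ((S : Set V) ∩ U)) = 5 := by
    have h1 := hstep j hjn
    have h2 : ¬ 5 ≤ rk' (F j ∩ ((S : Set V) ∩ U)) := fun h => hj1 ⟨hjn.le, h⟩
    have h3 : F i = F (j + 1) := by rw [hj]
    rw [← h3] at h1
    omega
  exact no_five h.zero hU hUc (hmod i hi.1) h5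

theorem no_modular_copoint {S : Finset V} (h : Good S 6) (X : Set V)
    (hX : IsModular (linMat (S : Set V)) X) : (linMat (S : Set V)).eRk X ≠ 5 := by
  obtain ⟨U, hU, -, hUc⟩ := h.core
  have hUt : U = ⊤ := by
    apply Submodule.eq_top_of_finrank_eq
    rw [hU, h.fr]
  have hXS : X ⊆ (S : Set V) := (isFlat_iff'.1 hX.1).1
  have h1 := no_five h.zero hU hUc hX
  rw [hUt, Submodule.top_coe, Set.inter_univ, Set.inter_eq_self_of_subset_left hXS] at h1
  rw [eRk_eq hXS]
  intro h2
  apply h1
  exact_mod_cast h2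

end

theorem main (n : ℕ) (hn : 6 ≤ n) : ∃ (α : Type) (_ : Fintype α) (M : Matroid α)
    (μ : Finset α → ℤ), IsGeometry M ∧ IsBinary M ∧ M.eRank = n ∧ IsMoebius M μ ∧
      charPoly M n μ = ∏ i ∈ Finset.range n, (Polynomial.X - Polynomial.C ((i : ℤ) + 1)) ∧
      ¬ Supersolvable M n ∧
      (n = 6 → ∀ X, IsModular M X → M.eRk X ≠ 5) := by
  obtain ⟨V, i1, i2, i3, S, hS⟩ := exists_good n hn
  refine ⟨V, i3, linMat (S : Set V), mu S, isGeometry hS.zero, isBinary S, eRank_eq hS,
    isMoebius S, charPoly_of_NN hS.fr hS.cnt, not_supersolvable hS, ?_⟩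
  rintro rfl X hX
  exact no_modular_copoint hS X hX

end BogSt
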