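import Mathlib

/-!
# MP_e962e1_co: the matroid of a finite set of vectors over `GF(2)`
-/

set_option autoImplicit false

namespace BogSt

variable {V : Type} [AddCommGroup V] [Module (ZMod 2) V] [Finite V]

/-- rank of a set of vectors -/
noncomputable def rk' (X : Set V) : ℕ := Module.finrank (ZMod 2) (Submodule.span (ZMod 2) X)

omit [Finite V] in
theorem rk_mono' [Finite V] {X Y : Set V} (h : X ⊆ Y) : rk' X ≤ rk' Y :=
  Submodule.finrank_mono (Submodule.span_mono h)

theorem rk_of_indep {I : Set V} (hI : LinearIndepOn (ZMod 2) id I) : rk' I = I.ncard := by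
  classical
  have : Fintype I := Fintype.ofFinite _
  have h := finrank_span_set_eq_card (R := ZMod 2) (s := I) hI
  unfold rk'
  rw [h, Set.ncard_eq_toFinset_card']

/-- the matroid -/
noncomputable def linMat (S : Set V) : Matroid V :=
  (IndepMatroid.ofFinite (E := S) S.toFinite
    (fun I => I ⊆ S ∧ LinearIndepOn (ZMod 2) id I)
    ⟨Set.empty_subset _, linearIndepOn_empty _ _⟩
    (fun _ _ hJ hIJ => ⟨hIJ.trans hJ.1, hJ.2.mono hIJ⟩)
    (by
      intro I J hI hJ hlt
      by_contra hcon
      push Not at hcon
      have hsub : J ⊆ Submodule.span (ZMod 2) I := by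
        intro e he
        by_contra hne
        have hnI : e ∉ I := fun h => hne (Submodule.subset_span h)
        exact hcon e he hnI (Set.insert_subset (hJ.1 he) hI.1) (hI.2.id_insert hne)
      have h1 : rk' J ≤ rk' I := Submodule.finrank_mono (Submodule.span_le.2 hsub)
      rw [rk_of_indep hI.2, rk_of_indep hJ.2] at h1
      omega)
    (fun _ hI => hI.1)).matroid

theorem linMat_E (S : Set V) : (linMat S).E = S := rfl

theorem linMat_indep {S I : Set V} :
    (linMat S).Indep I ↔ I ⊆ S ∧ LinearIndepOn (ZMod 2) id I := Iff.rfl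

theorem eRk_eq {S X : Set V} (hX : X ⊆ S) : (linMat S).eRk X = (rk' X : ℕ∞) := by
  obtain ⟨I, hIX, hspan, hI⟩ := exists_linearIndependent (ZMod 2) X
  have hI' : LinearIndepOn (ZMod 2) id I := hI
  have hb : (linMat S).IsBasis I X := by
    apply Matroid.Indep.isBasis_of_forall_insert (linMat_indep.2 ⟨hIX.trans hX, hI'⟩) hIX
    intro e he
    rw [Matroid.dep_iff]
    refine ⟨?_, Set.insert_subset (hX he.1) (hIX.trans hX)⟩
    intro h
    have := (linearIndepOn_id_insert he.2).1 h.2
    apply this.2
    rw [hspan]
    exact Submodule.subset_span he.1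
  rw [hb.eRk_eq_encard]
  have h1 : rk' X = I.ncard := by
    rw [← rk_of_indep hI']
    unfold rk'
    rw [hspan]
  rw [h1, Set.Finite.cast_ncard_eq (Set.toFinite I)]

omit [Finite V] in
theorem span_insert_of_mem {X : Set V} {e : V} (he : e ∈ Submodule.span (ZMod 2) X) :
    Submodule.span (ZMod 2) (insert e X) = Submodule.span (ZMod 2) X := by
  apply le_antisymm
  · rw [Submodule.span_le]
    exact Set.insert_subset he Submodule.subset_span
  · exact Submodule.span_mono (Set.subset_insert _ _)

theorem mem_span_of_rk {X : Set V} {e : V} (h : rk' (insert e X) = rk' X) :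
    e ∈ Submodule.span (ZMod 2) X := by
  have h1 : Submodule.span (ZMod 2) X ≤ Submodule.span (ZMod 2) (insert e X) :=
    Submodule.span_mono (Set.subset_insert _ _)
  have h2 := Submodule.eq_of_le_of_finrank_eq h1 h.symm
  rw [h2]
  exact Submodule.subset_span (Set.mem_insert _ _)

theorem closure_eq' {S X : Set V} (hX : X ⊆ S) :
    (linMat S).closure X = S ∩ Submodule.span (ZMod 2) X := by
  ext e
  constructor
  · intro he
    have heS : e ∈ S := (linMat S).mem_ground_of_mem_closure he
    refine ⟨heS, ?_⟩
    apply mem_span_of_rk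
    have h1 := (linMat S).eRk_closure_eq X
    have h2 : (linMat S).eRk (insert e X) ≤ (linMat S).eRk ((linMat S).closure X) :=
      (linMat S).eRk_mono (Set.insert_subset he ((linMat S).subset_closure X hX))
    rw [h1, eRk_eq hX, eRk_eq (Set.insert_subset heS hX)] at h2
    have h3 : rk' (insert e X) ≤ rk' X := by exact_mod_cast h2
    exact le_antisymm h3 (rk_mono' (Set.subset_insert _ _))
  · rintro ⟨heS, he⟩
    by_contra hne
    have h1 := Matroid.eRk_insert_eq_add_one (M := linMat S) (X := X) (e := e) ⟨heS, hne⟩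
    rw [eRk_eq hX, eRk_eq (Set.insert_subset heS hX)] at h1
    have h2 : rk' (insert e X) = rk' X := by
      unfold rk'
      rw [span_insert_of_mem he]
    rw [h2] at h1
    have h3 : rk' X = rk' X + 1 := by exact_mod_cast h1
    omega

theorem isFlat_iff' {S F : Set V} : (linMat S).IsFlat F ↔
    F ⊆ S ∧ ∀ x ∈ S, x ∈ Submodule.span (ZMod 2) F → x ∈ F := by
  constructor
  · intro h
    have hF : F ⊆ S := h.subset_ground
    refine ⟨hF, ?_⟩
    intro x hx hxF
    have := h.closure
    rw [closure_eq' hF] at this
    rw [← this]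
    exact ⟨hx, hxF⟩
  · rintro ⟨hF, h⟩
    rw [Matroid.isFlat_iff_closure_eq, closure_eq' hF]
    apply Set.Subset.antisymm
    · rintro x ⟨h1, h2⟩
      exact h x h1 h2
    · intro x hx
      exact ⟨hF hx, Submodule.subset_span hx⟩

end BogSt
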